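import Pool.Agent.Lib.MP_e1f7e2_al.FA.Iface

set_option autoImplicit false

/-!
Project FA, module TRACE.
-/

open MulOpposite

namespace Pool.Agent.Lib.MP_e1f7e2_al.FA.H94

/-- coefficient ring -/
abbrev RT (K : Type*) [Field K] (N : ℕ) : Type _ := MvPolynomial (Fin 3 × ZMod N) K

/-- matrices -/
abbrev MT (K : Type*) [Field K] (N : ℕ) : Type _ := Matrix (ZMod N) (ZMod N) (RT K N)

section

variable {K : Type*} [Field K] {N : ℕ} [NeZero N]

/-- generic weighted shifts -/
noncomputable def XT (i : Fin 3) : MT K N :=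
  fun p q => if q = p + 1 then MvPolynomial.X (i, p) else 0

/-- monomial of a word starting at `k` -/
noncomputable def mo : List (Fin 3) → ZMod N → ((Fin 3 × ZMod N) →₀ ℕ)
  | [], _ => 0
  | i :: u, k => Finsupp.single (i, k) 1 + mo u (k + 1)

/-- the representation -/
noncomputable def eT : A K 3 →ₐ[K] MT K N := evl XT

theorem eT_word (u : List (Fin 3)) (p q : ZMod N) :
    (eT (MonoidAlgebra.single (FreeMonoid.ofList u) (1 : K)) : MT K N) p q =
      if q = p + (u.length : ZMod N) then MvPolynomial.monomial (mo u p) 1 else 0 := by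
  induction u generalizing p with
  | nil =>
    have h : (MonoidAlgebra.single (FreeMonoid.ofList []) (1 : K) : A K 3) = 1 := rfl
    rw [h, map_one, Matrix.one_apply]
    simp [mo, eq_comm]
  | cons i u ih =>
    have h : (MonoidAlgebra.single (FreeMonoid.ofList (i :: u)) (1 : K) : A K 3) =
        MonoidAlgebra.single (FreeMonoid.of i) 1 *
          MonoidAlgebra.single (FreeMonoid.ofList u) 1 := by
      rw [MonoidAlgebra.single_mul_single, one_mul]
      rfl
    have hX : (eT (MonoidAlgebra.single (FreeMonoid.of i) (1 : K)) : MT K N) = XT i := by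
      unfold eT evl
      rw [MonoidAlgebra.lift_single, one_smul, FreeMonoid.lift_eval_of]
    rw [h, map_mul, hX, Matrix.mul_apply, Finset.sum_eq_single (p + 1)]
    · rw [ih]
      have e : q = p + 1 + (u.length : ZMod N) ↔ q = p + ((i :: u).length : ZMod N) := by
        rw [List.length_cons]
        push_cast
        rw [add_assoc, add_comm (1 : ZMod N)]
      simp only [XT, if_true]
      by_cases hq : q = p + 1 + (u.length : ZMod N)
      · rw [if_pos hq, if_pos (e.1 hq), mo, MvPolynomial.X, MvPolynomial.monomial_mul, one_mul]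
      · rw [if_neg hq, if_neg (fun h' => hq (e.2 h')), mul_zero]
    · intro r _ hr
      simp only [XT, if_neg hr, zero_mul]
    · intro hr
      exact absurd (Finset.mem_univ _) hr

theorem eT_apply (F : A K 3) (p q : ZMod N) :
    (eT F : MT K N) p q = ∑ u ∈ F.coeff.support,
      F.coeff u • (if q = p + (u.toList.length : ZMod N) then
        (MvPolynomial.monomial (mo u.toList p) (1 : K) : RT K N) else 0) := by
  conv_lhs => rw [← MonoidAlgebra.sum_coeff_single F]
  rw [Finsupp.sum, map_sum, Matrix.sum_apply]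
  refine Finset.sum_congr rfl fun u _ => ?_
  have h : (MonoidAlgebra.single u (F.coeff u) : A K 3) =
      F.coeff u • MonoidAlgebra.single (FreeMonoid.ofList u.toList) (1 : K) := by
    rw [MonoidAlgebra.smul_single, smul_eq_mul, mul_one]
    rfl
  rw [h, map_smul, Matrix.smul_apply, eT_word]

/-- letters of the monomial -/
theorem mo_apply_ne (u : List (Fin 3)) (k : ZMod N) (i : Fin 3) (t : ZMod N)
    (h : mo u k (i, t) ≠ 0) : ∃ s < u.length, t = k + (s : ZMod N) := by
  induction u generalizing k with
  | nil => exact absurd rfl h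
  | cons j u ih =>
    rw [mo, Finsupp.add_apply] at h
    by_cases h1 : Finsupp.single ((j, k) : Fin 3 × ZMod N) 1 (i, t) = 0
    · rw [h1, zero_add] at h
      obtain ⟨s, hs, hst⟩ := ih (k + 1) h
      refine ⟨s + 1, by simpa using hs, ?_⟩
      rw [hst]; push_cast; ring
    · refine ⟨0, by simp, ?_⟩
      rw [Finsupp.single_apply] at h1
      split_ifs at h1 with h2
      · have := congrArg Prod.snd h2
        simpa using this.symm
      · exact absurd rfl h1

theorem mo_inj (u v : List (Fin 3)) (k : ZMod N) (hl : u.length = v.length)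
    (hN : u.length ≤ N) (h : mo u k = mo v k) : u = v := by
  induction u generalizing v k with
  | nil => exact (List.length_eq_zero_iff.1 hl.symm).symm
  | cons i u ih =>
    cases v with
    | nil => simp at hl
    | cons j v =>
      have hl' : u.length = v.length := by simpa using hl
      have hN' : u.length + 1 ≤ N := by simpa using hN
      have key : ∀ (z : List (Fin 3)) (i' : Fin 3), z.length + 1 ≤ N → mo z (k + 1) (i', k) = 0 := by
        intro z i' hz
        by_contra hc
        obtain ⟨s, hs, hst⟩ := mo_apply_ne z (k + 1) i' k hc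
        have h0 : ((s + 1 : ℕ) : ZMod N) = 0 := by
          have : k + 1 + (s : ZMod N) = k := hst.symm
          push_cast
          linear_combination this
        rw [ZMod.natCast_eq_zero_iff] at h0
        have := Nat.le_of_dvd (by omega) h0
        omega
      have hi : i = j := by
        have h1 := DFunLike.congr_fun h (i, k)
        rw [mo, mo, Finsupp.add_apply, Finsupp.add_apply, key u i hN', key v i (by omega),
          Finsupp.single_eq_same, Finsupp.single_apply] at h1
        by_contra hij
        rw [if_neg] at h1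
        · omega
        · intro h2
          exact hij (congrArg Prod.fst h2).symm
      subst hi
      rw [mo, mo] at h
      have h' := add_left_cancel h
      rw [ih v (k + 1) hl' (by omega) h']

/-- all words have length `l` -/
def LenEq (l : ℕ) (F : A K 3) : Prop := ∀ u ∈ F.coeff.support, u.toList.length = l

/-- matrix of shift type -/
def Sh (a : ZMod N) (M : MT K N) : Prop := ∀ p q, q ≠ p + a → M p q = 0

/-- nonzero entries -/
def NZ (a : ZMod N) (M : MT K N) : Prop := ∀ p, M p (p + a) ≠ 0

theorem Sh.mul_apply {a b : ZMod N} {M M' : MT K N} (h : Sh a M) (p q : ZMod N) :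
    (M * M') p q = M p (p + a) * M' (p + a) q := by
  rw [Matrix.mul_apply, Finset.sum_eq_single (p + a)]
  · intro r _ hr
    rw [h p r hr, zero_mul]
  · intro hr
    exact absurd (Finset.mem_univ _) hr

theorem Sh.mul {a b : ZMod N} {M M' : MT K N} (h : Sh a M) (h' : Sh b M') :
    Sh (a + b) (M * M') := by
  intro p q hq
  rw [h.mul_apply (b := b), h' _ _ (by rwa [add_assoc]), mul_zero]

theorem NZ.mul {a b : ZMod N} {M M' : MT K N} (h : Sh a M) (n : NZ a M) (n' : NZ b M') :
    NZ (a + b) (M * M') := by
  intro p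
  rw [h.mul_apply (b := b), ← add_assoc]
  exact mul_ne_zero (n p) (n' _)

theorem Sh.one : Sh 0 (1 : MT K N) := by
  intro p q hq
  rw [add_zero] at hq
  exact Matrix.one_apply_ne (Ne.symm hq)

theorem NZ.one : NZ 0 (1 : MT K N) := by
  intro p
  rw [add_zero, Matrix.one_apply_eq]
  exact one_ne_zero

theorem Sh.pow {a : ZMod N} {M : MT K N} (h : Sh a M) (j : ℕ) :
    Sh ((j : ZMod N) * a) (M ^ j) := by
  induction j with
  | zero => simpa using Sh.one
  | succ j ih =>
    rw [pow_succ]
    have := ih.mul h
    have e : ((j + 1 : ℕ) : ZMod N) * a = j * a + a := by push_cast; ring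
    rwa [e]

theorem NZ.pow {a : ZMod N} {M : MT K N} (h : Sh a M) (n : NZ a M) (j : ℕ) :
    NZ ((j : ZMod N) * a) (M ^ j) := by
  induction j with
  | zero => simpa using NZ.one
  | succ j ih =>
    rw [pow_succ]
    have := NZ.mul (h.pow j) ih n
    have e : ((j + 1 : ℕ) : ZMod N) * a = j * a + a := by push_cast; ring
    rwa [e]

theorem sh_eT {l : ℕ} {F : A K 3} (h : LenEq l F) : Sh (l : ZMod N) (eT F : MT K N) := by
  intro p q hq
  rw [eT_apply]
  refine Finset.sum_eq_zero fun u hu => ?_
  rw [h u hu, if_neg hq, smul_zero]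

theorem nz_eT {l : ℕ} {F : A K 3} (h : LenEq l F) (hl : l ≤ N) (hF : F ≠ 0) :
    NZ (l : ZMod N) (eT F : MT K N) := by
  intro p
  have hs : F.coeff.support.Nonempty := by
    rw [Finset.nonempty_iff_ne_empty]
    intro he
    exact hF (MonoidAlgebra.coeff_eq_zero.1 (Finsupp.support_eq_empty.1 he))
  obtain ⟨u, hu⟩ := hs
  intro h0
  have h1 := congrArg (MvPolynomial.coeff (mo u.toList p)) h0
  rw [eT_apply, MvPolynomial.coeff_sum, Finset.sum_eq_single u] at h1
  · rw [h u hu, if_pos rfl, MvPolynomial.coeff_smul, MvPolynomial.coeff_monomial, if_pos rfl,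
      MvPolynomial.coeff_zero, smul_eq_mul, mul_one] at h1
    exact (Finsupp.mem_support_iff.1 hu) h1
  · intro v hv hvu
    rw [h v hv, if_pos rfl, MvPolynomial.coeff_smul, MvPolynomial.coeff_monomial, if_neg,
      smul_zero]
    intro he
    apply hvu
    have h2 := mo_inj v.toList u.toList p (by rw [h v hv, h u hu]) (by rw [h v hv]; exact hl) he
    exact FreeMonoid.toList.injective h2
  · intro hn
    exact absurd hu hn

end

section weights

variable {K : Type*} [Field K] {N : ℕ} [NeZero N] (w : Fin 3 → ℝ)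

/-- weight of a monomial -/
noncomputable def wT (m : (Fin 3 × ZMod N) →₀ ℕ) : ℝ := m.sum fun v k => (k : ℝ) * w v.1

theorem wT_mo (u : List (Fin 3)) (k : ZMod N) : wT w (mo u k) = (u.map w).sum := by
  induction u generalizing k with
  | nil => simp [mo, wT]
  | cons i u ih =>
    rw [mo, wT, Finsupp.sum_add_index', List.map_cons, List.sum_cons, ← ih (k + 1)]
    · rw [Finsupp.sum_single_index]
      · simp [wT]
      · simp
    · intro a; simp
    · intro a b c; push_cast; ring

theorem trace_coeff (F : A K 3) (m : (Fin 3 × ZMod N) →₀ ℕ) :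
    MvPolynomial.coeff m (Matrix.trace (eT F : MT K N)) = ∑ u ∈ F.coeff.support,
      F.coeff u * MvPolynomial.coeff m (∑ p : ZMod N, (if p = p + (u.toList.length : ZMod N) then
        (MvPolynomial.monomial (mo u.toList p) (1 : K) : RT K N) else 0)) := by
  simp only [Matrix.trace, Matrix.diag, eT_apply]
  rw [Finset.sum_comm, MvPolynomial.coeff_sum]
  refine Finset.sum_congr rfl fun u _ => ?_
  rw [← Finset.smul_sum, MvPolynomial.coeff_smul, smul_eq_mul]

theorem coeff_t (u : Wd 3) (m : (Fin 3 × ZMod N) →₀ ℕ) (h : wT w m ≠ wt w u) :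
    MvPolynomial.coeff m (∑ p : ZMod N, (if p = p + (u.toList.length : ZMod N) then
        (MvPolynomial.monomial (mo u.toList p) (1 : K) : RT K N) else 0)) = 0 := by
  rw [MvPolynomial.coeff_sum]
  refine Finset.sum_eq_zero fun p _ => ?_
  split_ifs with h1
  · rw [MvPolynomial.coeff_monomial, if_neg]
    intro he
    apply h
    rw [← he, wT_mo]
    rfl
  · exact MvPolynomial.coeff_zero _

theorem trace_cmp (F : A K 3) (r : ℝ) (h : Matrix.trace (eT F : MT K N) = 0) :
    Matrix.trace (eT (cmp (wt w) r F) : MT K N) = 0 := by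
  ext m
  rw [trace_coeff, MvPolynomial.coeff_zero]
  by_cases hm : wT w m = r
  · have h1 := congrArg (MvPolynomial.coeff m) h
    rw [trace_coeff, MvPolynomial.coeff_zero] at h1
    rw [← h1]
    have hc : (cmp (wt w) r F).coeff = F.coeff.filter (fun u => wt w u = r) := rfl
    rw [hc, Finsupp.support_filter, Finset.sum_filter]
    refine Finset.sum_congr rfl fun u _ => ?_
    split_ifs with h2
    · have h3 : (F.coeff.filter (fun u => wt w u = r)) u = F.coeff u :=
        Finsupp.filter_apply_pos (fun u => wt w u = r) F.coeff h2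
      rw [h3]
    · rw [coeff_t w u m (by rw [hm]; exact fun h3 => h2 h3.symm), mul_zero]
  · refine Finset.sum_eq_zero fun u hu => ?_
    have hc : (cmp (wt w) r F).coeff = F.coeff.filter (fun u => wt w u = r) := rfl
    rw [hc, Finsupp.support_filter, Finset.mem_filter] at hu
    rw [coeff_t w u m (by rw [hu.2]; exact hm), mul_zero]

end weights

theorem pow_ne_zero_of_dom {K : Type*} [Field K] {w : Fin 3 → ℝ} (hd : DegFacts K w)
    (g : A K 3) (hg : g ≠ 0) (j : ℕ) : g ^ j ≠ 0 := by
  induction j with
  | zero =>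
    rw [pow_zero]
    intro h1
    exact hg (by rw [← one_mul g, h1, zero_mul])
  | succ j ih =>
    rw [pow_succ]
    intro h0
    rcases hd.dom _ _ h0 with h1 | h1
    · exact ih h1
    · exact hg h1

theorem top_pow {K : Type*} [Field K] {w : Fin 3 → ℝ} (hd : DegFacts K w)
    (ht : TopFacts K w) (g : A K 3) (hg : g ≠ 0) (j : ℕ) : top w (g ^ j) = top w g ^ j := by
  induction j with
  | zero =>
    rw [pow_zero, pow_zero]
    apply ht.self
    intro u hu
    have h1 : dg w (1 : A K 3) = 0 := by
      have := hd.const (1 : K)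
      rwa [one_smul] at this
    rw [h1]
    have h2 : u = 1 := by
      by_contra h3
      rw [Finsupp.mem_support_iff] at hu
      apply hu
      classical
      rw [MonoidAlgebra.one_def, MonoidAlgebra.coeff_single, Finsupp.single_apply, if_neg]
      exact fun h4 => h3 h4.symm
    rw [h2]
    simp [wt]
  | succ j ih =>
    rw [pow_succ, pow_succ, ht.mul _ _ (pow_ne_zero_of_dom hd g hg j) hg, ih]

theorem trace (K : Type*) [Field K] (w : Fin 3 → ℝ) (hw : Gen w) (hd : DegFacts K w)
    (ht : TopFacts K w) : TraceStatement K w := by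
  intro f g hfg hcomm
  set h := f * g - g * f with hh
  have hh0 : h ≠ 0 := sub_ne_zero.2 hfg
  have hg0 : g ≠ 0 := by
    intro h0; apply hfg; rw [h0]; simp
  have hgd : 0 < dg w g := by
    rcases (hd.nn g).lt_or_eq with h1 | h1
    · exact h1
    · obtain ⟨c, hc⟩ := hd.of_zero g h1.symm
      exact absurd (by rw [hc]; simp) hfg
  set H := top w h with hH
  set V := top w g with hV
  have hH0 : H ≠ 0 := ht.ne h hh0
  have hV0 : V ≠ 0 := ht.ne g hg0
  obtain ⟨a, ha⟩ := ht.len H (ht.hom h)
  obtain ⟨b, hb⟩ := ht.len V (ht.hom g)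
  have hbpos : 0 < b := by
    have hs : V.coeff.support.Nonempty := by
      rw [Finset.nonempty_iff_ne_empty]
      intro he
      exact hV0 (MonoidAlgebra.coeff_eq_zero.1 (Finsupp.support_eq_empty.1 he))
    obtain ⟨u, hu⟩ := hs
    rw [← hb u hu]
    have h1 := ht.hom g u hu
    have h2 : dg w V = dg w g := ht.dgt g
    rw [Nat.pos_iff_ne_zero]
    intro h3
    rw [List.length_eq_zero_iff] at h3
    have h4 : wt w u = 0 := by unfold wt; rw [h3]; simp
    have h5 : dg w V = 0 := by rw [← h1, h4]
    rw [h2] at h5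
    exact hgd.ne' h5
  obtain ⟨N, hN, hp⟩ := Nat.exists_infinite_primes (a + b + ringChar K + 1)
  haveI : Fact N.Prime := ⟨hp⟩
  haveI : NeZero N := ⟨hp.ne_zero⟩
  have hNK : (N : K) ≠ 0 := by
    intro h0
    have h1 := (ringChar.spec K N).1 h0
    rcases (Nat.dvd_prime hp).1 h1 with h2 | h2
    · exact CharP.ringChar_ne_one h2
    · omega
  have hb0 : (b : ZMod N) ≠ 0 := by
    rw [Ne, ZMod.natCast_eq_zero_iff]
    intro h0
    have := Nat.le_of_dvd hbpos h0
    omega
  set j : ℕ := ((-(a : ZMod N)) * (b : ZMod N)⁻¹).val with hj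
  have hjab : (j : ZMod N) * b + a = 0 := by
    rw [hj, ZMod.natCast_val, ZMod.cast_id', id, mul_assoc, inv_mul_cancel₀ hb0]
    ring
  -- the diagonal matrix
  have shV : Sh (b : ZMod N) (eT V : MT K N) := sh_eT hb
  have nzV : NZ (b : ZMod N) (eT V : MT K N) := nz_eT hb (by omega) hV0
  have shH : Sh (a : ZMod N) (eT H : MT K N) := sh_eT ha
  have nzH : NZ (a : ZMod N) (eT H : MT K N) := nz_eT ha (by omega) hH0
  set D : MT K N := eT (V ^ j * H) with hD
  have hDe : D = (eT V) ^ j * eT H := by rw [hD, map_mul, map_pow]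
  have shD : Sh 0 D := by
    have := (shV.pow j).mul shH
    rw [hjab] at this
    rw [hDe]; exact this
  have nzD : NZ 0 D := by
    have := NZ.mul (shV.pow j) (NZ.pow shV nzV j) nzH
    rw [hjab] at this
    rw [hDe]; exact this
  -- trace
  have htop : top w (g ^ j * h) = V ^ j * H := by
    rw [ht.mul _ _ (pow_ne_zero_of_dom hd g hg0 j) hh0]
    congr 1
    exact top_pow hd ht g hg0 j
  have htr : Matrix.trace (eT (g ^ j * h) : MT K N) = 0 := by
    have e : g ^ j * h = (g ^ j * f) * g - g * (g ^ j * f) := by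
      rw [hh, mul_sub, ← mul_assoc, ← mul_assoc, ← mul_assoc, ← pow_succ, ← pow_succ']
    rw [e, map_sub, map_mul, map_mul eT g, Matrix.trace_sub, Matrix.trace_mul_comm, sub_self]
  have htrD : Matrix.trace D = 0 := by
    rw [hD, ← htop]
    exact trace_cmp w _ _ htr
  have hDV : D * eT V = eT V * D := by
    rw [hD, ← map_mul, ← map_mul]
    congr 1
    rw [mul_assoc, hcomm, ← mul_assoc, ← mul_assoc, ← pow_succ, ← pow_succ']
  have hstep : ∀ p : ZMod N, D p p = D (p + b) (p + b) := by
    intro p
    have h1 := congrFun (congrFun hDV p) (p + b)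
    rw [shD.mul_apply (b := (b : ZMod N)), shV.mul_apply (b := 0), add_zero] at h1
    rw [mul_comm] at h1
    exact mul_left_cancel₀ (nzV p) h1
  have hall : ∀ k : ℕ, D 0 0 = D ((k : ZMod N) * b) ((k : ZMod N) * b) := by
    intro k
    induction k with
    | zero => simp
    | succ k ih =>
      rw [ih, hstep]
      have e : ((k + 1 : ℕ) : ZMod N) * b = (k : ZMod N) * b + b := by push_cast; ring
      rw [e]
  have hall' : ∀ p : ZMod N, D p p = D 0 0 := by
    intro p
    have h1 := hall (p * (b : ZMod N)⁻¹).val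
    rw [ZMod.natCast_val, ZMod.cast_id', id, mul_assoc, inv_mul_cancel₀ hb0, mul_one] at h1
    exact h1.symm
  have h3 : Matrix.trace D = (N : RT K N) * D 0 0 := by
    simp only [Matrix.trace, Matrix.diag, hall']
    rw [Finset.sum_const, Finset.card_univ, ZMod.card, nsmul_eq_mul]
  rw [h3] at htrD
  rcases mul_eq_zero.1 htrD with h4 | h4
  · apply hNK
    have : (MvPolynomial.C (N : K) : RT K N) = 0 := by rw [map_natCast]; exact h4
    exact (MvPolynomial.C_eq_zero).1 this
  · have := nzD 0
    rw [add_zero] at this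
    exact this h4

end Pool.Agent.Lib.MP_e1f7e2_al.FA.H94
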