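import Pool.Agent.Lib.MP_e1f7e2_al.FA.Iface2

set_option autoImplicit false

/-!
Project FA, module WP.
-/

open MulOpposite

namespace Pool.Agent.Lib.MP_e1f7e2_al.FA.H94

section

variable {K : Type*} [Field K]

theorem len_zero (m : ℕ) {n : ℕ} : Len m (0 : A K n) := by
  intro u hu
  simp at hu

theorem len_add {n m : ℕ} {f g : A K n} (hf : Len m f) (hg : Len m g) : Len m (f + g) := by
  intro u hu
  rw [MonoidAlgebra.coeff_add] at hu
  classical
  rcases Finset.mem_union.1 (Finsupp.support_add hu) with h | h
  · exact hf u h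
  · exact hg u h

theorem len_smul {n m : ℕ} {f : A K n} (c : K) (hf : Len m f) : Len m (c • f) := by
  intro u hu
  rw [MonoidAlgebra.coeff_smul] at hu
  exact hf u (Finsupp.support_smul hu)

theorem len_sum {n m : ℕ} {ι : Type*} (s : Finset ι) (f : ι → A K n) (h : ∀ i ∈ s, Len m (f i)) :
    Len m (∑ i ∈ s, f i) := by
  classical
  induction s using Finset.induction_on with
  | empty => rw [Finset.sum_empty]; exact len_zero m
  | insert a s ha ih =>
    rw [Finset.sum_insert ha]
    exact len_add (h a (Finset.mem_insert_self a s))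
      (ih fun i hi => h i (Finset.mem_insert_of_mem hi))

theorem len_mul {n a b : ℕ} {f g : A K n} (hf : Len a f) (hg : Len b g) :
    Len (a + b) (f * g) := by
  classical
  intro u hu
  rw [Finsupp.mem_support_iff, MonoidAlgebra.coeff_mul] at hu
  obtain ⟨x, hx, h1⟩ := Finset.exists_ne_zero_of_sum_ne_zero hu
  obtain ⟨y, hy, h2⟩ := Finset.exists_ne_zero_of_sum_ne_zero h1
  have h3 : x * y = u := by
    by_contra h4
    simp only [h4, if_false] at h2
    exact h2 rfl
  rw [← h3, FreeMonoid.toList_mul, List.length_append]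
  exact Nat.add_le_add (hf x hx) (hg y hy)

theorem len_one {n : ℕ} : Len 0 (1 : A K n) := by
  classical
  intro u hu
  rw [Finsupp.mem_support_iff, MonoidAlgebra.one_def, MonoidAlgebra.coeff_single,
    Finsupp.single_apply] at hu
  have : 1 = u := by
    by_contra h
    rw [if_neg h] at hu
    exact hu rfl
  rw [← this]
  simp

/-- the product of `g, h` along a word -/
theorem len_word (g h : A K 3) (c : ℕ) (hg : Len c g) (hh : Len c h) (l : List (Fin 2)) :
    Len (l.length * c) (ev (MonoidAlgebra.single (FreeMonoid.ofList l) (1 : K)) g h) := by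
  induction l with
  | nil =>
    have e : (MonoidAlgebra.single (FreeMonoid.ofList []) (1 : K) : A K 2) = 1 := rfl
    rw [e]
    unfold ev
    rw [map_one]
    simpa using len_one
  | cons i l ih =>
    have e : (MonoidAlgebra.single (FreeMonoid.ofList (i :: l)) (1 : K) : A K 2) =
        MonoidAlgebra.single (FreeMonoid.of i) 1 *
          MonoidAlgebra.single (FreeMonoid.ofList l) 1 := by
      rw [MonoidAlgebra.single_mul_single, one_mul]
      rfl
    have e2 : ev (MonoidAlgebra.single (FreeMonoid.of i) (1 : K)) g h = ![g, h] i := by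
      unfold ev evl
      rw [MonoidAlgebra.lift_single, one_smul, FreeMonoid.lift_eval_of]
    have e3 : ev (MonoidAlgebra.single (FreeMonoid.ofList (i :: l)) (1 : K)) g h =
        ![g, h] i * ev (MonoidAlgebra.single (FreeMonoid.ofList l) (1 : K)) g h := by
      rw [e, ← e2]
      unfold ev
      rw [map_mul]
    rw [e3, List.length_cons, add_mul, one_mul, add_comm]
    apply len_mul _ ih
    fin_cases i
    · exact hg
    · exact hh

end

/-! ### words with a small period -/

/-- the word has the period `r` -/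
def Per (r : ℕ) (u : Wd 3) : Prop :=
  ∀ i : ℕ, i + r < u.toList.length → u.toList[i]? = u.toList[i + r]?

theorem per_of_not {m : ℕ} (hm : 1 ≤ m) {u : Wd 3} (h : ¬ NoPer m u) :
    ∃ r : ℕ, 1 ≤ r ∧ r ≤ m ∧ Per r u := by
  by_cases h1 : m < u.toList.length
  · by_contra h2
    apply h
    refine ⟨h1, fun r hr hrm => ?_⟩
    by_contra h3
    apply h2
    refine ⟨r, hr, hrm, fun i hi => ?_⟩
    by_contra h4
    exact h3 ⟨i, hi, h4⟩
  · exact ⟨m, hm, le_rfl, fun i hi => by omega⟩

theorem per_ext {r : ℕ} (hr : 1 ≤ r) {u v : Wd 3} (hu : Per r u) (hv : Per r v)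
    (hl : u.toList.length = v.toList.length) (h : ∀ i < r, u.toList[i]? = v.toList[i]?) :
    u = v := by
  have key : ∀ i : ℕ, u.toList[i]? = v.toList[i]? := by
    intro i
    induction i using Nat.strong_induction_on with
    | _ i ih =>
      by_cases hi : i < r
      · exact h i hi
      · by_cases h1 : i < u.toList.length
        · have e : i - r + r = i := by omega
          have h2 := hu (i - r) (by rw [e]; exact h1)
          have h3 := hv (i - r) (by rw [e, ← hl]; exact h1)
          rw [e] at h2 h3
          rw [← h2, ← h3]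
          exact ih (i - r) (by omega)
        · rw [List.getElem?_eq_none (by omega), List.getElem?_eq_none (by omega)]
  exact FreeMonoid.toList.injective (List.ext_getElem? key)

theorem bad_card (m L : ℕ) (S : Set (Wd 3)) (hS : ∀ u ∈ S, u.toList.length ≤ L ∧
    ∃ r : ℕ, 1 ≤ r ∧ r ≤ m ∧ Per r u) : S.ncard ≤ (L + 1) * ((m + 1) * 4 ^ m) := by
  classical
  choose hlen r hr1 hrm hper using hS
  let Φ : S → Fin (L + 1) × (Fin (m + 1) × (Fin m → Option (Fin 3))) := fun u =>
    (⟨(u : Wd 3).toList.length, by have := hlen u u.2; omega⟩,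
      (⟨r u u.2, by have := hrm u u.2; omega⟩, fun i => (u : Wd 3).toList[(i : ℕ)]?))
  have hinj : Function.Injective Φ := by
    intro u v huv
    have h1 := congrArg Prod.fst huv
    have h2 := congrArg (fun x => x.2.1) huv
    have h3 := congrArg (fun x => x.2.2) huv
    have h1' : (u : Wd 3).toList.length = (v : Wd 3).toList.length := congrArg Fin.val h1
    have h2' : r u u.2 = r v v.2 := congrArg Fin.val h2
    apply Subtype.ext
    refine per_ext (hr1 u u.2) (hper u u.2) ?_ h1' ?_
    · rw [h2']; exact hper v v.2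
    · intro i hi
      have := congrFun h3 ⟨i, lt_of_lt_of_le hi (hrm u u.2)⟩
      exact this
  have hfin : Finite S := Finite.of_injective Φ hinj
  have h4 := Nat.card_le_card_of_injective Φ hinj
  rw [Nat.card_coe_set_eq] at h4
  refine h4.trans ?_
  rw [Nat.card_eq_fintype_card]
  simp

theorem exists_large (c D : ℕ) : ∃ n : ℕ, (n * c + 1) * D < 2 ^ n := by
  set F := (c + 1) * D with hF
  refine ⟨2 * F + 2, ?_⟩
  have h1 : F < 2 ^ F := Nat.lt_two_pow_self
  have h2 : F + 1 < 2 ^ (F + 1) := Nat.lt_two_pow_self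
  have h3 : (2 * F + 2) * c + 1 ≤ (2 * F + 3) * (c + 1) := by nlinarith
  calc ((2 * F + 2) * c + 1) * D ≤ ((2 * F + 3) * (c + 1)) * D := Nat.mul_le_mul_right D h3
    _ = (2 * F + 3) * F := by rw [hF]; ring
    _ ≤ (2 ^ (F + 2)) * F := by
        apply Nat.mul_le_mul_right
        have : 2 ^ (F + 2) = 2 * 2 ^ (F + 1) := by ring
        omega
    _ < 2 ^ (F + 2) * 2 ^ F := by
        apply Nat.mul_lt_mul_of_pos_left h1
        positivity
    _ = 2 ^ (2 * F + 2) := by rw [← pow_add]; congr 1; ring

theorem noPer_mono {m : ℕ} {u : Wd 3} (h : NoPer (m + 1) u) : NoPer m u :=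
  ⟨by have := h.1; omega, fun r hr hrm => h.2 r hr (by omega)⟩

section

variable {K : Type*} [Field K]

/-- the linear map -/
noncomputable def TT (g h : A K 3) (n : ℕ) : ((Fin n → Fin 2) → K) →ₗ[K] A K 3 :=
  Fintype.linearCombination K (fun V : Fin n → Fin 2 =>
    ev (MonoidAlgebra.single (FreeMonoid.ofList (List.ofFn V)) (1 : K)) g h)

theorem TT_apply (g h : A K 3) (n : ℕ) (a : (Fin n → Fin 2) → K) :
    TT g h n a = ev (∑ V, a V • MonoidAlgebra.single (FreeMonoid.ofList (List.ofFn V)) (1 : K))
      g h := by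
  unfold TT
  rw [Fintype.linearCombination_apply]
  unfold ev
  rw [map_sum]
  simp only [map_smul]

theorem TT_inj {w : Fin 3 → ℝ} (he : EFacts K w) (g h : A K 3) (hgh : g * h ≠ h * g) (n : ℕ) :
    Function.Injective (TT g h n) := by
  classical
  rw [← LinearMap.ker_eq_bot, LinearMap.ker_eq_bot']
  intro a ha
  rw [TT_apply] at ha
  have h1 := he.inj g h _ hgh ha
  funext V
  have h2 := congrArg (fun P : A K 2 => P.coeff (FreeMonoid.ofList (List.ofFn V))) h1
  simp only [MonoidAlgebra.coeff_sum, Finsupp.finset_sum_apply, MonoidAlgebra.coeff_smul,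
    Finsupp.smul_apply, MonoidAlgebra.coeff_single, Finsupp.single_apply] at h2
  rw [Finset.sum_eq_single V] at h2
  · simpa using h2
  · intro V' _ hV
    rw [if_neg, smul_zero]
    intro h3
    exact hV (List.ofFn_injective (FreeMonoid.ofList.injective h3))
  · intro h3; exact absurd (Finset.mem_univ V) h3

theorem ev_mem (P : A K 2) (g h : A K 3) : ev P g h ∈ B g h := by
  have h1 : ∀ l : List (Fin 2),
      ev (MonoidAlgebra.single (FreeMonoid.ofList l) (1 : K)) g h ∈ B g h := by
    intro l
    induction l with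
    | nil =>
      have e : (MonoidAlgebra.single (FreeMonoid.ofList []) (1 : K) : A K 2) = 1 := rfl
      rw [e]
      unfold ev
      rw [map_one]
      exact one_mem _
    | cons i l ih =>
      have e : (MonoidAlgebra.single (FreeMonoid.ofList (i :: l)) (1 : K) : A K 2) =
          MonoidAlgebra.single (FreeMonoid.of i) 1 *
            MonoidAlgebra.single (FreeMonoid.ofList l) 1 := by
        rw [MonoidAlgebra.single_mul_single, one_mul]
        rfl
      have e2 : ev (MonoidAlgebra.single (FreeMonoid.of i) (1 : K)) g h = ![g, h] i := by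
        unfold ev evl
        rw [MonoidAlgebra.lift_single, one_smul, FreeMonoid.lift_eval_of]
      have e3 : ev (MonoidAlgebra.single (FreeMonoid.ofList (i :: l)) (1 : K)) g h =
          ![g, h] i * ev (MonoidAlgebra.single (FreeMonoid.ofList l) (1 : K)) g h := by
        rw [e, ← e2]
        unfold ev
        rw [map_mul]
      rw [e3]
      refine mul_mem ?_ ih
      fin_cases i
      · exact Algebra.subset_adjoin (by simp)
      · exact Algebra.subset_adjoin (by simp)
  conv in P => rw [← MonoidAlgebra.sum_coeff_single P]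
  unfold ev
  rw [Finsupp.sum, map_sum]
  refine sum_mem fun u _ => ?_
  have h2 : (MonoidAlgebra.single u (P.coeff u) : A K 2) =
      P.coeff u • MonoidAlgebra.single (FreeMonoid.ofList u.toList) (1 : K) := by
    rw [MonoidAlgebra.smul_single, smul_eq_mul, mul_one]
    rfl
  rw [h2, map_smul]
  exact Subalgebra.smul_mem _ (h1 u.toList) _

end

theorem wp (K : Type*) [Field K] (w : Fin 3 → ℝ) (hw : Gen w) (hl : LwFacts K w)
    (he : EFacts K w) : WpStatement K w := by
  intro g h hgh m
  -- a common bound for the lengths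
  obtain ⟨c, hcg, hch⟩ : ∃ c, Len c g ∧ Len c h := by
    refine ⟨g.coeff.support.sup (fun u => u.toList.length) +
      h.coeff.support.sup (fun u => u.toList.length), fun u hu => ?_, fun u hu => ?_⟩
    · have := Finset.le_sup (f := fun u : Wd 3 => u.toList.length) hu
      exact this.trans (Nat.le_add_right _ _)
    · have := Finset.le_sup (f := fun u : Wd 3 => u.toList.length) hu
      exact this.trans (Nat.le_add_left _ _)
  obtain ⟨n, hn⟩ := exists_large c ((m + 1 + 1) * 4 ^ (m + 1))
  set S : Submodule K (A K 3) := LinearMap.range (TT g h n) with hS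
  have hfr : Module.finrank K S = 2 ^ n := by
    rw [hS, LinearMap.finrank_range_of_inj (TT_inj he g h hgh n),
      Module.finrank_fintype_fun_eq_card]
    simp
  obtain ⟨hfin, hcard⟩ := hl.dim S
  have hlen : ∀ f ∈ S, Len (n * c) f := by
    rintro f ⟨a, rfl⟩
    unfold TT
    rw [Fintype.linearCombination_apply]
    refine len_sum _ _ fun V _ => len_smul _ ?_
    have := len_word g h c hcg hch (List.ofFn V)
    rwa [List.length_ofFn] at this
  by_contra hcon
  push Not at hcon
  have hbad : ∀ u ∈ {u : Wd 3 | ∃ f ∈ S, IsLw w f u}, u.toList.length ≤ n * c ∧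
      ∃ r : ℕ, 1 ≤ r ∧ r ≤ m + 1 ∧ Per r u := by
    rintro u ⟨f, hf, hfu⟩
    refine ⟨hlen f hf u hfu.1, per_of_not (by omega) fun hnp => ?_⟩
    obtain ⟨a, rfl⟩ := hf
    rw [TT_apply] at hfu
    exact hcon _ (ev_mem _ g h) u hfu (noPer_mono hnp)
  have h1 := bad_card (m + 1) (n * c) _ hbad
  rw [hfr] at hcard
  omega

end Pool.Agent.Lib.MP_e1f7e2_al.FA.H94
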